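import Pool.Agent.H692Z.T0.Basic

set_option autoImplicit false

/-!
# The limit group is a `T₀`-group
-/

namespace Pool.Agent.H692Z.T0

open Pool.Agent.H535Z.HG Subgroup

variable {G : Type} [Group G]

lemma mem_cen {i a : G} : a ∈ centralizer ({i} : Set G) ↔ i * a = a * i := by
  simp [mem_centralizer_iff]

lemma mem_zpowers_sq {P : Type} [Group P] {j x : P} (hj : j * j = 1) (hx : x ∈ zpowers j) :
    x = 1 ∨ x = j := by
  obtain ⟨k, rfl⟩ := mem_zpowers_iff.1 hx
  have h2 : j ^ (2 : ℤ) = 1 := by rw [zpow_two, hj]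
  rcases Int.even_or_odd' k with ⟨m, rfl | rfl⟩
  · left; rw [zpow_mul, h2, one_zpow]
  · right; rw [zpow_add, zpow_mul, h2, one_zpow, one_mul, zpow_one]

section
variable {i z y : G} (A : Alg G i z y) (hfin : ∀ t : G, IsOfFinOrder (i * (t * i * t⁻¹)))
include A

lemma order_i : orderOf i = 2 := orderOf_eq_prime (by rw [pow_two, A.sq]) A.ne

lemma part3 : Infinite (centralizer ({i} : Set G)) ∧ centralizer ({i} : Set G) ≠ ⊤ ∧
    (periodicPart (centralizer ({i} : Set G))).Finite := by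
  refine ⟨?_, ?_, ?_⟩
  · have h1 : zpowers z ≤ centralizer ({i} : Set G) := by
      rw [zpowers_le, mem_cen]; exact A.zi.eq.symm
    have h2 : (zpowers z : Set G).Infinite := infinite_zpowers.2 A.zinf
    exact (h2.mono h1).to_subtype
  · intro h
    have : y ∈ centralizer ({i} : Set G) := h ▸ mem_top y
    exact A.yi (mem_cen.1 this).symm
  · refine (Set.toFinite ({1, i} : Set G)).subset ?_
    rintro a ⟨h1, h2⟩
    rcases comm_inv A h2 A.sq A.ne (mem_cen.1 h1).symm with h | h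
    · left; exact h
    · right; exact h

/-- The normaliser of a finite subgroup containing a nontrivial element `r` of the cyclic part. -/
lemma norm_cases {K : Subgroup G} {ρ r : G} (hρ : Odd (orderOf ρ))
    (hK : ∀ k ∈ K, k ∉ zpowers ρ → k * k = 1) (hrK : r ∈ K) (hr : r ∈ zpowers ρ) (h1 : r ≠ 1)
    {t : G} (ht : t ∈ normalizer (K : Set G)) :
    (t * r = r * t ∧ Odd (orderOf t)) ∨ (t * t = 1 ∧ t * r * t⁻¹ = r⁻¹) := by
  have hro := odd_of_mem hρ hr
  have h2 : t * r * t⁻¹ ∈ K := (mem_normalizer_iff.1 ht r).1 hrK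
  have h3 : t * r * t⁻¹ ∈ zpowers ρ := by
    by_contra hn
    have h4 := hK _ h2 hn
    have h5 : t * r * t⁻¹ = 1 := eq_one_of_odd (by rw [orderOf_conj']; exact hro) h4
    apply h1
    calc r = t⁻¹ * (t * r * t⁻¹) * t := by group
      _ = 1 := by rw [h5]; group
  have h4 : t * r * t⁻¹ ∈ zpowers r :=
    mem_of_order_eq (fin_of_odd hρ) hr h3 (orderOf_conj' t r).symm
  have h5 : IsOfFinOrder t := fin_of_norm A hro h1 h4
  obtain ⟨σ, hσ, h6, -⟩ := dih' A.dih _ (fin_sup_zpowers (fin_of_odd hro) h5 h4)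
  have hrm : r ∈ zpowers σ := by
    by_contra hn
    exact h1 (eq_one_of_odd hro (h6 r (mem_sup_left (mem_zpowers r)) hn).1)
  by_cases htm : t ∈ zpowers σ
  · left
    refine ⟨?_, odd_of_mem hσ htm⟩
    obtain ⟨k, rfl⟩ := mem_zpowers_iff.1 htm
    obtain ⟨l, rfl⟩ := mem_zpowers_iff.1 hrm
    group
  · right
    have := h6 t (mem_sup_right (mem_zpowers t)) htm
    exact ⟨this.1, this.2 r hrm⟩

/-- The Frobenius group. -/
lemma frob (P : Subgroup G) {r : G} (hro : Odd (orderOf r)) (h1 : r ≠ 1) (hrP : r ∈ P)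
    (hiP : i ∈ P) (hir : i * r * i⁻¹ = r⁻¹)
    (hP : ∀ t ∈ P, (t * r = r * t ∧ Odd (orderOf t)) ∨ (t * t = 1 ∧ t * r * t⁻¹ = r⁻¹)) :
    ∃ F H : Subgroup P, IsFrobenius P F H ∧ (∀ a ∈ F, ∀ b ∈ F, a * b = b * a) ∧
      Finite H ∧ Even (Nat.card H) := by
  have hii : i⁻¹ = i := inv_eq_of_mul_eq_one_right A.sq
  have hne : ∀ t : G, t * r = r * t → t * r * t⁻¹ ≠ r⁻¹ := by
    intro t h h'
    rw [h, mul_inv_cancel_right] at h'
    exact h1 (eq_one_of_odd hro (by rw [mul_eq_one_iff_eq_inv]; exact h'))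
  have hodd : ∀ t ∈ P, t * r = r * t → Odd (orderOf t) := by
    intro t ht h
    rcases hP t ht with h2 | h2
    · exact h2.2
    · exact absurd h2.2 (hne t h)
  have hinv : ∀ t ∈ P, t * r ≠ r * t → t * t = 1 ∧ t * r * t⁻¹ = r⁻¹ := by
    intro t ht h
    rcases hP t ht with h2 | h2
    · exact absurd h2.1 h
    · exact h2
  have hfo : ∀ t ∈ P, IsOfFinOrder t := by
    intro t ht
    rcases hP t ht with h2 | h2
    · exact fin_of_odd h2.2
    · exact fin_of_sq h2.1
  have hmul : ∀ t : G, t * r * t⁻¹ = r⁻¹ → t * i * r = r * (t * i) := by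
    intro t h
    have : t * i * r * (t * i)⁻¹ = r := by
      calc t * i * r * (t * i)⁻¹ = t * (i * r * i⁻¹) * t⁻¹ := by group
        _ = (t * r * t⁻¹)⁻¹ := by rw [hir]; group
        _ = r := by rw [h, inv_inv]
    calc t * i * r = t * i * r * (t * i)⁻¹ * (t * i) := by group
      _ = r * (t * i) := by rw [this]
  have hiinv : ∀ a ∈ P, a * r = r * a → i * a * i⁻¹ = a⁻¹ := by
    intro a ha h
    have h2 : a * i * r ≠ r * (a * i) := by
      intro h3
      apply hne i ?_ hir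
      have : a * (i * r) = a * (r * i) := by
        rw [← mul_assoc, h3, ← mul_assoc, ← h, mul_assoc]
      exact mul_left_cancel this
    have h4 := (hinv _ (mul_mem ha hiP) h2).1
    rw [hii, eq_inv_iff_mul_eq_one]
    calc i * a * i * a = a⁻¹ * (a * i * (a * i)) * i⁻¹ * i * a := by group
      _ = 1 := by rw [h4]; group
  let ι : P := ⟨i, hiP⟩
  have hιι : ι * ι = 1 := Subtype.ext A.sq
  have hι1 : ι ≠ 1 := fun h => A.ne (congrArg Subtype.val h)
  let F : Subgroup P := (centralizer ({r} : Set G)).subgroupOf P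
  have memF : ∀ a : P, a ∈ F ↔ (a : G) * r = r * a := by
    intro a
    simp only [F, mem_subgroupOf, mem_cen]
    exact eq_comm
  have hιF : ι ∉ F := fun h => hne i ((memF ι).1 h) hir
  refine ⟨F, zpowers ι, ⟨?_, ?_, ?_, ?_, ?_, ?_, ?_⟩, ?_, ?_, ?_⟩
  · exact zpowers_ne_bot.2 hι1
  · intro h
    have h2 : (⟨r, hrP⟩ : P) ∈ zpowers ι := h ▸ mem_top _
    rcases mem_zpowers_sq hιι h2 with h3 | h3
    · exact h1 (congrArg Subtype.val h3)
    · have h4 : r = i := congrArg Subtype.val h3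
      exact h1 (eq_one_of_odd hro (by rw [h4, A.sq]))
  · intro g hg x hx hgx
    rcases mem_zpowers_sq hιι hx with h2 | h2
    · exact h2
    · exfalso
      subst h2
      rcases mem_zpowers_sq hιι hgx with h3 | h3
      · apply hι1
        calc ι = g⁻¹ * (g * ι * g⁻¹) * g := by group
          _ = 1 := by rw [h3]; group
      · have h4 : g * ι = ι * g := by
          calc g * ι = g * ι * g⁻¹ * g := by group
            _ = ι * g := by rw [h3]
        have h5 : (g : G) * i = i * g := congrArg Subtype.val h4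
        rcases comm_inv A (hfo g g.2) A.sq A.ne h5 with h6 | h6
        · exact hg ((Subtype.ext h6 : g = 1) ▸ one_mem _)
        · exact hg ((Subtype.ext h6 : g = ι) ▸ mem_zpowers ι)
  · ext x
    simp only [SetLike.mem_coe, Set.mem_union, Set.mem_ofPred_eq, Set.mem_singleton_iff]
    constructor
    · intro hx
      by_cases hx1 : x = 1
      · exact Or.inr hx1
      left
      rintro ⟨g, hg⟩
      apply hx1
      have h2 : (g * x * g⁻¹) * (g * x * g⁻¹) = 1 := by
        rcases mem_zpowers_sq hιι hg with h3 | h3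
        · rw [h3, one_mul]
        · rw [h3, hιι]
      have h3 : x * x = 1 := by
        calc x * x = g⁻¹ * ((g * x * g⁻¹) * (g * x * g⁻¹)) * g := by group
          _ = 1 := by rw [h2]; group
      exact Subtype.ext (eq_one_of_odd (hodd x x.2 ((memF x).1 hx)) (congrArg Subtype.val h3))
    · rintro (hx | hx)
      · by_contra hn
        apply hx
        have h2 := hinv x x.2 (fun h => hn ((memF x).2 h))
        have haP : (x : G) * i ∈ P := mul_mem x.2 hiP
        have h3 := hmul x h2.2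
        obtain ⟨k, hk⟩ := hodd _ haP h3
        have h4 := hiinv _ haP h3
        set a : G := (x : G) * i with ha
        have hb : a ^ (k + 1) * a ^ (k + 1) = a := by
          rw [← pow_add, show k + 1 + (k + 1) = 2 * k + 1 + 1 by ring, ← hk, pow_succ,
            pow_orderOf_eq_one, one_mul]
        have h5 : i * a ^ (k + 1) * i⁻¹ = (a ^ (k + 1))⁻¹ :=
          inv_of_mem h4 (pow_mem (mem_zpowers a) _)
        have hx' : (x : G) = a * i := by rw [ha, mul_assoc, A.sq, mul_one]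
        refine ⟨⟨(a ^ (k + 1))⁻¹, inv_mem (pow_mem haP _)⟩, ?_⟩
        have h6 : (⟨(a ^ (k + 1))⁻¹, inv_mem (pow_mem haP _)⟩ : P) * x *
            (⟨(a ^ (k + 1))⁻¹, inv_mem (pow_mem haP _)⟩ : P)⁻¹ = ι := by
          apply Subtype.ext
          change (a ^ (k + 1))⁻¹ * x * (a ^ (k + 1))⁻¹⁻¹ = i
          generalize a ^ (k + 1) = b at hb h5
          rw [hx', ← hb]
          calc b⁻¹ * (b * b * i) * b⁻¹⁻¹ = b * (i * b * i⁻¹) * i := by group
            _ = i := by rw [h5]; group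
        rw [h6]
        exact mem_zpowers ι
      · rw [hx]; exact one_mem _
  · refine ⟨fun f hf g => (memF _).2 ?_⟩
    have h2 := (memF f).1 hf
    change (g : G) * f * (g : G)⁻¹ * r = r * ((g : G) * f * (g : G)⁻¹)
    rcases hP g g.2 with h3 | h3
    · have h4 : (g : G)⁻¹ * r = r * (g : G)⁻¹ := by
        calc (g : G)⁻¹ * r = (g : G)⁻¹ * (r * g) * (g : G)⁻¹ := by group
          _ = r * (g : G)⁻¹ := by rw [← h3.1]; group
      calc (g : G) * f * (g : G)⁻¹ * r = g * f * ((g : G)⁻¹ * r) := by group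
        _ = g * (f * r) * (g : G)⁻¹ := by rw [h4]; group
        _ = (g * r) * f * (g : G)⁻¹ := by rw [h2]; group
        _ = r * (g * f * (g : G)⁻¹) := by rw [h3.1]; group
    · have h4 : r = g * r⁻¹ * (g : G)⁻¹ := by
        calc r = (g * r * (g : G)⁻¹)⁻¹ := by rw [h3.2, inv_inv]
          _ = g * r⁻¹ * (g : G)⁻¹ := by group
      have h5 : (f : G) * r⁻¹ = r⁻¹ * f := by
        calc (f : G) * r⁻¹ = r⁻¹ * (r * f) * r⁻¹ := by group
          _ = r⁻¹ * f := by rw [← h2]; group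
      calc (g : G) * f * (g : G)⁻¹ * r = g * f * (g : G)⁻¹ * (g * r⁻¹ * (g : G)⁻¹) := by
            rw [← h4]
        _ = g * (f * r⁻¹) * (g : G)⁻¹ := by group
        _ = (g * r⁻¹ * (g : G)⁻¹) * (g * f * (g : G)⁻¹) := by rw [h5]; group
        _ = r * (g * f * (g : G)⁻¹) := by rw [← h4]
  · intro p
    by_cases hp : p ∈ F
    · exact ⟨p, hp, 1, one_mem _, (mul_one p).symm⟩
    · refine ⟨p * ι, (memF _).2 (hmul p (hinv p p.2 (fun h => hp ((memF p).2 h))).2), ι,
        mem_zpowers ι, ?_⟩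
      rw [mul_assoc, hιι, mul_one]
  · rw [eq_bot_iff]
    rintro x ⟨hx1, hx2⟩
    rcases mem_zpowers_sq hιι hx2 with h2 | h2
    · rw [h2]; exact one_mem _
    · exact absurd (h2 ▸ hx1) hιF
  · intro a ha b hb
    apply Subtype.ext
    change (a : G) * b = b * a
    have h2 := hiinv a a.2 ((memF a).1 ha)
    have h3 := hiinv b b.2 ((memF b).1 hb)
    have h4 := hiinv _ (a * b).2 ((memF _).1 (mul_mem ha hb))
    change i * (a * b) * i⁻¹ = ((a : G) * b)⁻¹ at h4
    have h5 : ((b : G) * a)⁻¹ = ((a : G) * b)⁻¹ := by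
      rw [← h4, mul_inv_rev, ← h2, ← h3]; group
    exact (inv_injective h5).symm
  · exact (finite_zpowers.2 (isOfFinOrder_iff_pow_eq_one.2
      ⟨2, by norm_num, by rw [pow_two, hιι]⟩)).to_subtype
  · rw [Nat.card_zpowers, orderOf_eq_prime (p := 2) (by rw [pow_two, hιι]) hι1]
    decide

lemma part4 (K : Subgroup G) (hK : K ≠ ⊥) (hf : Finite K)
    (hi : (fun x => i⁻¹ * x * i) '' (K : Set G) = K) :
    normalizer (K : Set G) ≤ centralizer ({i} : Set G) ∨
    ∃ P : Subgroup G, (P : Set G) = periodicPart (normalizer (K : Set G)) ∧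
      ∃ F H : Subgroup P, IsFrobenius P F H ∧ (∀ a ∈ F, ∀ b ∈ F, a * b = b * a) ∧
        Finite H ∧ Even (Nat.card H) := by
  have hii : i⁻¹ = i := inv_eq_of_mul_eq_one_right A.sq
  have hiK : ∀ k ∈ K, i * k * i⁻¹ ∈ K := by
    intro k hk
    have : i⁻¹ * k * i ∈ (K : Set G) := hi ▸ Set.mem_image_of_mem _ hk
    rw [hii] at this ⊢
    exact this
  have hiN : i ∈ normalizer (K : Set G) := mem_normalizer_fintype (S := (K : Set G)) hiK
  have hH : Finite (K ⊔ zpowers i : Subgroup G) :=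
    fin_sup _ _ hf (fin_zpowers (fin_of_sq A.sq)) (by rw [zpowers_le]; exact hiN)
  obtain ⟨ρ, hρ, h2, h3⟩ := dih' A.dih _ hH
  have hin := not_mem_of_sq hρ A.sq A.ne
  by_cases hc : ∃ r ∈ K, r ∈ zpowers ρ ∧ r ≠ 1
  · right
    obtain ⟨r, hrK, hr, h1⟩ := hc
    have hP : ∀ t ∈ normalizer (K : Set G),
        (t * r = r * t ∧ Odd (orderOf t)) ∨ (t * t = 1 ∧ t * r * t⁻¹ = r⁻¹) := fun t ht =>
      norm_cases A hρ (fun k hk hn => (h2 k (mem_sup_left hk) hn).1) hrK hr h1 ht
    refine ⟨normalizer (K : Set G), ?_, frob A _ (odd_of_mem hρ hr) h1 (le_normalizer hrK) hiN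
      ((h2 i (mem_sup_right (mem_zpowers i)) hin).2 r hr) hP⟩
    ext t
    refine ⟨fun ht => ⟨ht, ?_⟩, fun ht => ht.1⟩
    rcases hP t ht with h4 | h4
    · exact fin_of_odd h4.2
    · exact fin_of_sq h4.1
  · left
    push Not at hc
    have huniq : ∀ k ∈ K, ∀ k' ∈ K, k ≠ 1 → k' ≠ 1 → k = k' := by
      intro k hk k' hk' h4 h5
      have n1 : k ∉ zpowers ρ := fun h => h4 (hc k hk h)
      have n2 : k' ∉ zpowers ρ := fun h => h5 (hc k' hk' h)
      have h6 := hc _ (mul_mem hk hk') (h3 k (mem_sup_left hk) k' (mem_sup_left hk') n1 n2)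
      have h7 := (h2 k' (mem_sup_left hk') n2).1
      calc k = k * (k' * k') := by rw [h7, mul_one]
        _ = k' := by rw [← mul_assoc, h6, one_mul]
    have hconj : ∀ t k : G, k ≠ 1 → t * k * t⁻¹ ≠ 1 := by
      intro t k h4 h5
      apply h4
      calc k = t⁻¹ * (t * k * t⁻¹) * t := by group
        _ = 1 := by rw [h5]; group
    obtain ⟨⟨x, hx⟩, hx1⟩ := (ne_bot_iff_exists_ne_one).1 hK
    have hx1' : x ≠ 1 := fun h => hx1 (Subtype.ext h)
    have h4 := huniq _ (hiK x hx) x hx (hconj i x hx1') hx1'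
    have h5 : x * i = i * x := by
      calc x * i = i * x * i⁻¹ * i := by rw [h4]
        _ = i * x := by group
    have hxf : IsOfFinOrder x :=
      fin_of_sq (h2 x (mem_sup_left hx) (fun h => hx1' (hc x hx h))).1
    have h6 : x = i := (comm_inv A hxf A.sq A.ne h5).resolve_left hx1'
    subst h6
    intro t ht
    have h7 := huniq _ ((mem_normalizer_iff.1 ht x).1 hx) x hx (hconj t x hx1') hx1'
    rw [mem_cen]
    calc x * t = t * x * t⁻¹ * t := by rw [h7]
      _ = t * x := by group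

include hfin

lemma part2 (P : Subgroup G) (hP : IsPGroup 2 P) : IsCyclic P := by
  have hsq : ∀ g ∈ P, g * g = 1 := by
    intro g hg
    obtain ⟨k, hk⟩ := hP ⟨g, hg⟩
    have hk' : g ^ 2 ^ k = 1 := congrArg Subtype.val hk
    have hgf : IsOfFinOrder g := isOfFinOrder_iff_pow_eq_one.2 ⟨2 ^ k, by positivity, hk'⟩
    obtain ⟨ρ, hρ, h2, -⟩ := dih' A.dih _ (fin_zpowers hgf)
    by_cases hm : g ∈ zpowers ρ
    · have h3 := odd_of_mem hρ hm
      have h4 : orderOf g ∣ 2 ^ k := orderOf_dvd_of_pow_eq_one hk'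
      have h5 : orderOf g = 1 :=
        Nat.Coprime.eq_one_of_dvd (Nat.Coprime.pow_right k (Nat.coprime_two_right.2 h3)) h4
      rw [orderOf_eq_one_iff.1 h5, one_mul]
    · exact (h2 g (mem_zpowers g) hm).1
  by_cases hc : ∃ x : P, x ≠ 1
  · obtain ⟨x, hx⟩ := hc
    refine ⟨⟨x, fun w => ?_⟩⟩
    by_cases hw : w = 1
    · exact ⟨0, by simp [hw]⟩
    · refine ⟨1, ?_⟩
      have hx' : (x : G) ≠ 1 := fun h => hx (Subtype.ext h)
      have hw' : (w : G) ≠ 1 := fun h => hw (Subtype.ext h)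
      have h2 := odd_mul A hfin (hsq x x.2) hx' (hsq w w.2) hw'
      have h3 := eq_one_of_odd h2 (hsq _ (mul_mem x.2 w.2))
      simp only [zpow_one]
      apply Subtype.ext
      calc (x : G) = x * (w * w) := by rw [hsq w w.2, mul_one]
        _ = w := by rw [← mul_assoc, h3, one_mul]
  · push Not at hc
    exact ⟨⟨1, fun w => ⟨0, by simp [hc w]⟩⟩⟩

lemma part5 (c : G) (hc : c ∉ centralizer ({i} : Set G)) (ho : orderOf (c * i) = 2) :
    Infinite (closure ({c, z⁻¹ * c * z} : Set G)) := by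
  have h1 : c ≠ 1 := fun h => hc (h ▸ one_mem _)
  have h2 : c * i * (c * i) = 1 := by rw [← pow_two, ← ho, pow_orderOf_eq_one]
  have h3 : c * i ≠ 1 := fun h => by rw [h, orderOf_one] at ho; exact absurd ho (by decide)
  have h4 : Odd (orderOf c) := by
    have := odd_mul A hfin h2 h3 A.sq A.ne
    rwa [mul_assoc, A.sq, mul_one] at this
  have h5 : orderOf (z⁻¹ * c * z) = orderOf c := by
    have := orderOf_conj' z⁻¹ c
    rwa [inv_inv] at this
  rw [← not_finite_iff_infinite]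
  intro hf
  obtain ⟨ρ, hρ, h6, -⟩ := dih' A.dih _ hf
  have m1 : c ∈ zpowers ρ := by
    by_contra hn
    exact h1 (eq_one_of_odd h4 (h6 c (subset_closure (by simp)) hn).1)
  have m2 : z⁻¹ * c * z ∈ zpowers ρ := by
    by_contra hn
    have h7 := eq_one_of_odd (h5 ▸ h4) (h6 _ (subset_closure (by simp)) hn).1
    rw [h7, orderOf_one] at h5
    exact h1 (orderOf_eq_one_iff.1 h5.symm)
  have h8 := mem_of_order_eq (fin_of_odd hρ) m1 m2 h5.symm
  have h9 : IsOfFinOrder z⁻¹ := fin_of_norm A h4 h1 (by rwa [inv_inv])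
  exact A.zinf (isOfFinOrder_inv_iff.1 h9)

end

theorem thm_T0 : S_T0 := by
  intro G _ i z y A hfin
  refine ⟨order_i A, ?_, fun P hP => Or.inl (part2 A hfin P hP), part3 A, part4 A, ?_⟩
  · intro j k hj hk
    obtain ⟨t, rfl⟩ := isConj_iff.1 hj
    obtain ⟨u, rfl⟩ := isConj_iff.1 hk
    refine IsConj.isOfFinOrder (isConj_iff.2 ⟨t, ?_⟩) (hfin (t⁻¹ * u))
    group
  · intro c hc ho
    exact ⟨z, mem_cen.2 A.zi.eq.symm, part5 A hfin c hc ho⟩

end Pool.Agent.H692Z.T0
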