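import Pool.Agent.H535Z.HG.St

set_option autoImplicit false

/-!
# The limit group is a `T₀`-group: lemmas
-/

namespace Pool.Agent.H692Z.T0

open Pool.Agent.H535Z.HG Subgroup

variable {G : Type} [Group G]

lemma fin_zpowers {a : G} (ha : IsOfFinOrder a) : Finite (zpowers a) :=
  (finite_zpowers.2 ha).to_subtype

lemma fin_sup (K L : Subgroup G) (hK : Finite K) (hL : Finite L)
    (h : L ≤ normalizer (K : Set G)) : Finite (K ⊔ L : Subgroup G) := by
  have e := coe_mul_of_right_le_normalizer_left K L h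
  have h1 : (K : Set G).Finite := Set.toFinite _
  have h2 : (L : Set G).Finite := Set.toFinite _
  have : ((K ⊔ L : Subgroup G) : Set G).Finite := by rw [e]; exact h1.mul h2
  exact this.to_subtype

lemma fin_of_odd {a : G} (h : Odd (orderOf a)) : IsOfFinOrder a := by
  rw [← orderOf_pos_iff]
  exact h.pos

lemma fin_of_sq {a : G} (h : a * a = 1) : IsOfFinOrder a :=
  isOfFinOrder_iff_pow_eq_one.2 ⟨2, by norm_num, by rw [pow_two, h]⟩

lemma eq_one_of_odd {a : G} (h : Odd (orderOf a)) (h2 : a * a = 1) : a = 1 := by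
  have h3 : orderOf a ∣ 2 := orderOf_dvd_of_pow_eq_one (by rw [pow_two, h2])
  rcases (Nat.dvd_prime Nat.prime_two).1 h3 with h4 | h4
  · exact orderOf_eq_one_iff.1 h4
  · rw [h4] at h; exact absurd h (by decide)

lemma odd_of_mem {ρ a : G} (h : Odd (orderOf ρ)) (ha : a ∈ zpowers ρ) : Odd (orderOf a) :=
  Odd.of_dvd_nat h (orderOf_dvd_of_mem_zpowers ha)

lemma inv_of_mem {ρ a j : G} (h : j * ρ * j⁻¹ = ρ⁻¹) (ha : a ∈ zpowers ρ) :
    j * a * j⁻¹ = a⁻¹ := by
  obtain ⟨k, rfl⟩ := mem_zpowers_iff.1 ha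
  rw [← conj_zpow, h, inv_zpow]

lemma conj_mem_zpowers {r t a : G} (h : t * r * t⁻¹ ∈ zpowers r) (ha : a ∈ zpowers r) :
    t * a * t⁻¹ ∈ zpowers r := by
  obtain ⟨k, rfl⟩ := mem_zpowers_iff.1 ha
  rw [← conj_zpow]
  exact zpow_mem h k

lemma fin_sup_zpowers {r t : G} (hr : IsOfFinOrder r) (ht : IsOfFinOrder t)
    (h : t * r * t⁻¹ ∈ zpowers r) : Finite (zpowers r ⊔ zpowers t : Subgroup G) := by
  have hf := fin_zpowers hr
  refine fin_sup _ _ hf (fin_zpowers ht) ?_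
  rw [zpowers_le]
  exact mem_normalizer_fintype (S := (zpowers r : Set G)) fun n hn => conj_mem_zpowers h hn

/-- A convenient form of `Dih`. -/
lemma dih' (hd : Dih G) (H : Subgroup G) (hH : Finite H) :
    ∃ ρ : G, Odd (orderOf ρ) ∧
      (∀ h ∈ H, h ∉ zpowers ρ → h * h = 1 ∧ ∀ a ∈ zpowers ρ, h * a * h⁻¹ = a⁻¹) ∧
      ∀ h ∈ H, ∀ h' ∈ H, h ∉ zpowers ρ → h' ∉ zpowers ρ → h * h' ∈ zpowers ρ := by
  obtain ⟨ρ, j, ho, hj⟩ := hd H hH
  have key : ∀ h ∈ H, h ∉ zpowers ρ → ∃ a ∈ zpowers ρ, h = a * j ∧ j * j = 1 ∧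
      j * ρ * j⁻¹ = ρ⁻¹ := by
    intro h hh hn
    rcases hj h hh with h1 | ⟨h1, h2, h3⟩
    · exact absurd h1 hn
    · exact ⟨h * j, h1, by rw [mul_assoc, h2, mul_one], h2, h3⟩
  refine ⟨ρ, ho, ?_, ?_⟩
  · intro h hh hn
    obtain ⟨a, ha, rfl, h2, h3⟩ := key h hh hn
    have hjj : j⁻¹ = j := inv_eq_of_mul_eq_one_right h2
    have h4 := inv_of_mem h3 ha
    refine ⟨?_, ?_⟩
    · calc a * j * (a * j) = a * (j * a * j⁻¹) := by rw [hjj]; group
        _ = 1 := by rw [h4]; group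
    · intro b hb
      have h5 := inv_of_mem h3 hb
      have h6 : a * b⁻¹ = b⁻¹ * a := by
        obtain ⟨k, rfl⟩ := mem_zpowers_iff.1 ha
        obtain ⟨l, rfl⟩ := mem_zpowers_iff.1 hb
        group
      calc a * j * b * (a * j)⁻¹ = a * (j * b * j⁻¹) * a⁻¹ := by group
        _ = b⁻¹ := by rw [h5, h6]; group
  · intro h hh h' hh' hn hn'
    obtain ⟨a, ha, rfl, h2, h3⟩ := key h hh hn
    obtain ⟨b, hb, rfl, -, -⟩ := key h' hh' hn'
    have hjj : j⁻¹ = j := inv_eq_of_mul_eq_one_right h2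
    have h5 := inv_of_mem h3 hb
    have : a * j * (b * j) = a * b⁻¹ := by
      rw [← h5, hjj]; group
    rw [this]
    exact mul_mem ha (inv_mem hb)

/-- Elements of the same order in a finite cyclic group generate the same subgroup. -/
lemma mem_of_order_eq {ρ a b : G} (hρ : IsOfFinOrder ρ) (ha : a ∈ zpowers ρ)
    (hb : b ∈ zpowers ρ) (h : orderOf a = orderOf b) : b ∈ zpowers a := by
  obtain ⟨m, rfl⟩ := (hρ.mem_powers_iff_mem_zpowers.2 ha)
  obtain ⟨n, rfl⟩ := (hρ.mem_powers_iff_mem_zpowers.2 hb)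
  simp only at h ⊢
  rw [hρ.orderOf_pow, hρ.orderOf_pow] at h
  have hN : 0 < orderOf ρ := hρ.orderOf_pos
  have e : Nat.gcd (orderOf ρ) m = Nat.gcd (orderOf ρ) n := by
    have h1 := Nat.div_mul_cancel (Nat.gcd_dvd_left (orderOf ρ) m)
    have h2 := Nat.div_mul_cancel (Nat.gcd_dvd_left (orderOf ρ) n)
    rw [h] at h1
    have h3 : 0 < orderOf ρ / Nat.gcd (orderOf ρ) n :=
      Nat.div_pos (Nat.gcd_le_left _ hN) (Nat.gcd_pos_of_pos_left _ hN)
    exact Nat.eq_of_mul_eq_mul_left h3 (h1.trans h2.symm)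
  have h4 : ρ ^ Nat.gcd (orderOf ρ) m ∈ zpowers (ρ ^ m) := by
    refine mem_zpowers_iff.2 ⟨Nat.gcdB (orderOf ρ) m, ?_⟩
    rw [← zpow_natCast ρ (Nat.gcd _ _), Nat.gcd_eq_gcd_ab, zpow_add, zpow_mul, zpow_mul,
      zpow_natCast, zpow_natCast, pow_orderOf_eq_one, one_zpow, one_mul]
  obtain ⟨k, hk⟩ := Nat.gcd_dvd_right (orderOf ρ) n
  rw [hk, pow_mul, ← e]
  exact pow_mem h4 k

lemma orderOf_conj' (t a : G) : orderOf (t * a * t⁻¹) = orderOf a := by
  have := (MulAut.conj t).orderOf_eq a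
  simpa using this

/-- An element normalising a nontrivial cyclic group of odd order has finite order. -/
lemma fin_of_norm {i z y : G} (A : Alg G i z y) {c t : G} (hc : Odd (orderOf c)) (h1 : c ≠ 1)
    (h : t * c * t⁻¹ ∈ zpowers c) : IsOfFinOrder t := by
  have hf := fin_zpowers (fin_of_odd hc)
  have hm : ∀ n : ℕ, t ^ n * c * (t ^ n)⁻¹ ∈ zpowers c := by
    intro n
    induction n with
    | zero => simp
    | succ n ih =>
      have := conj_mem_zpowers h ih
      convert this using 1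
      rw [pow_succ']; group
  obtain ⟨m, n, hmn, he⟩ := Finite.exists_ne_map_eq_of_infinite
    (fun n : ℕ => (⟨_, hm n⟩ : zpowers c))
  have he' : t ^ m * c * (t ^ m)⁻¹ = t ^ n * c * (t ^ n)⁻¹ := congrArg Subtype.val he
  have key : ∀ m n : ℕ, m < n → t ^ m * c * (t ^ m)⁻¹ = t ^ n * c * (t ^ n)⁻¹ →
      IsOfFinOrder t := by
    intro m n hlt e
    obtain ⟨k, rfl⟩ := Nat.exists_eq_add_of_lt hlt
    have hc' : Commute (t ^ (k + 1)) c := by
      have e2 : c = t ^ (k + 1) * c * (t ^ (k + 1))⁻¹ := by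
        have : t ^ m * c * (t ^ m)⁻¹ =
            t ^ m * (t ^ (k + 1) * c * (t ^ (k + 1))⁻¹) * (t ^ m)⁻¹ := by
          rw [e, add_assoc, pow_add]; group
        exact mul_left_cancel (mul_right_cancel this)
      change t ^ (k + 1) * c = c * t ^ (k + 1)
      calc t ^ (k + 1) * c = t ^ (k + 1) * c * (t ^ (k + 1))⁻¹ * t ^ (k + 1) := by group
        _ = c * t ^ (k + 1) := by rw [← e2]
    exact (A.cen c _ hc h1 hc').of_pow (Nat.succ_ne_zero k)
  rcases lt_or_gt_of_ne hmn with hlt | hlt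
  · exact key m n hlt he'
  · exact key n m hlt he'.symm

lemma not_mem_of_sq {ρ x : G} (hρ : Odd (orderOf ρ)) (hx : x * x = 1) (h1 : x ≠ 1) :
    x ∉ zpowers ρ := fun h => h1 (eq_one_of_odd (odd_of_mem hρ h) hx)

section
variable {i z y : G} (A : Alg G i z y) (hfin : ∀ t : G, IsOfFinOrder (i * (t * i * t⁻¹)))
include A

/-- An element of finite order commuting with an involution `x` is `1` or `x`. -/
lemma comm_inv {a x : G} (ha : IsOfFinOrder a) (hx : x * x = 1) (h1 : x ≠ 1)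
    (hc : a * x = x * a) : a = 1 ∨ a = x := by
  have hH : Finite (zpowers a ⊔ zpowers x : Subgroup G) :=
    fin_sup_zpowers ha (fin_of_sq hx) (by rw [← hc, mul_inv_cancel_right]; exact mem_zpowers a)
  obtain ⟨ρ, hρ, h2, h3⟩ := dih' A.dih _ hH
  have hax : a ∈ (zpowers a ⊔ zpowers x : Subgroup G) := mem_sup_left (mem_zpowers a)
  have hxx : x ∈ (zpowers a ⊔ zpowers x : Subgroup G) := mem_sup_right (mem_zpowers x)
  have hxn := not_mem_of_sq hρ hx h1
  by_cases hm : a ∈ zpowers ρ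
  · left
    have h4 := (h2 x hxx hxn).2 a hm
    rw [← hc, mul_inv_cancel_right] at h4
    exact eq_one_of_odd (odd_of_mem hρ hm) (by rw [mul_eq_one_iff_eq_inv]; exact h4)
  · right
    have h4 := (h2 a hax hm).1
    have h5 := h3 a hax x hxx hm hxn
    have h6 : a * x = 1 := eq_one_of_odd (odd_of_mem hρ h5) (by
      calc a * x * (a * x) = a * (x * a) * x := by group
        _ = (a * a) * (x * x) := by rw [← hc]; group
        _ = 1 := by rw [h4, hx, one_mul])
    calc a = a * (x * x) := by rw [hx, mul_one]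
      _ = x := by rw [← mul_assoc, h6, one_mul]

include hfin

lemma fin_mul {x x' : G} (hx : x * x = 1) (h1 : x ≠ 1) (hx' : x' * x' = 1) (h1' : x' ≠ 1) :
    IsOfFinOrder (x * x') := by
  obtain ⟨t, rfl⟩ := A.conj x hx h1
  obtain ⟨u, rfl⟩ := A.conj x' hx' h1'
  have := hfin (t⁻¹ * u)
  refine IsConj.isOfFinOrder (isConj_iff.2 ⟨t, ?_⟩) this
  group

/-- The product of two involutions has odd order. -/
lemma odd_mul {x x' : G} (hx : x * x = 1) (h1 : x ≠ 1) (hx' : x' * x' = 1) (h1' : x' ≠ 1) :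
    Odd (orderOf (x * x')) := by
  have e1 : x⁻¹ = x := inv_eq_of_mul_eq_one_right hx
  have e2 : x'⁻¹ = x' := inv_eq_of_mul_eq_one_right hx'
  have hH : Finite (zpowers (x * x') ⊔ zpowers x : Subgroup G) := by
    refine fin_sup_zpowers (fin_mul A hfin hx h1 hx' h1') (fin_of_sq hx) ?_
    have : x * (x * x') * x⁻¹ = (x * x')⁻¹ := by
      rw [← mul_assoc, hx, one_mul, mul_inv_rev, e2]
    rw [this]
    exact inv_mem (mem_zpowers _)
  obtain ⟨ρ, hρ, -, h3⟩ := dih' A.dih _ hH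
  have hxx : x ∈ (zpowers (x * x') ⊔ zpowers x : Subgroup G) := mem_sup_right (mem_zpowers x)
  have hx'x : x' ∈ (zpowers (x * x') ⊔ zpowers x : Subgroup G) := by
    have := mul_mem hxx (mem_sup_left (mem_zpowers (x * x')) :
      x * x' ∈ (zpowers (x * x') ⊔ zpowers x : Subgroup G))
    rwa [← mul_assoc, hx, one_mul] at this
  exact odd_of_mem hρ (h3 x hxx x' hx'x (not_mem_of_sq hρ hx h1) (not_mem_of_sq hρ hx' h1'))

end

end Pool.Agent.H692Z.T0
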